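import Pool.Agent.K9h86.CP.Df

set_option autoImplicit false

namespace Pool.Agent.K9h86.CP

open NumberField Polynomial Filter Topology IsDedekindDomain

section

variable {F : Type} [Field F] [NumberField F] {E : Type} [Field E] [NumberField E]
  (M : SelfDualMotive F E)

lemma even_rank (σ : F →+* ℂ) (ι : E →+* ℂ) : Even M.n := by
  set t := M.types σ ι with ht
  have h1 : (t.filter (fun p => ¬ p < M.m)).card = (t.filter (fun p => p < M.m)).card := by
    have h2 : t.filter (fun p => ¬ p < M.m) =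
        (t.filter (fun p => ¬ (2 * M.m - p) < M.m)).map (fun p => 2 * M.m - p) := by
      conv_lhs => rw [ht, ← M.self_dual σ ι]
      rw [Multiset.filter_map]
      rfl
    rw [h2, Multiset.card_map]
    congr 1
    apply Multiset.filter_congr
    intro p hp
    have : p ≠ M.m := fun h => M.no_middle σ ι (h ▸ hp)
    constructor <;> intro h <;> omega
  have h3 : t.card = (t.filter (fun p => p < M.m)).card + (t.filter (fun p => ¬ p < M.m)).card := by
    rw [← Multiset.card_add, Multiset.filter_add_not]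
  rw [← M.card_types σ ι, ← ht, h3, h1]
  exact Even.add_self _

lemma gamma_ne {s : ℂ} {k : ℤ} (hs : s = k) (hk : 0 < k) : Complex.Gammaℂ s ≠ 0 := by
  rw [Complex.Gammaℂ_def]
  have h1 : (2 * (Real.pi : ℂ)) ≠ 0 := by
    simp [Real.pi_ne_zero]
  refine mul_ne_zero (mul_ne_zero two_ne_zero ?_) ?_
  · rw [Complex.cpow_def_of_ne_zero h1]
    exact Complex.exp_ne_zero _
  · apply Complex.Gamma_ne_zero
    intro m hm
    rw [hs] at hm
    have : k = -(m : ℤ) := by exact_mod_cast hm
    omega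

lemma gamma_cont {s : ℂ} {k : ℤ} (hs : s = k) (hk : 0 < k) : ContinuousAt Complex.Gammaℂ s := by
  have h1 : (2 * (Real.pi : ℂ)) ≠ 0 := by
    simp [Real.pi_ne_zero]
  have e : Complex.Gammaℂ = fun z => 2 * (2 * (Real.pi : ℂ)) ^ (-z) * Complex.Gamma z := by
    funext z; exact Complex.Gammaℂ_def z
  rw [e]
  apply ContinuousAt.mul
  · apply ContinuousAt.mul continuousAt_const
    apply ContinuousAt.const_cpow
    · exact continuousAt_id.neg
    · exact Or.inl h1
  · apply (Complex.differentiableAt_Gamma s ?_).continuousAt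
    intro m hm
    rw [hs] at hm
    have : k = -(m : ℤ) := by exact_mod_cast hm
    omega

lemma Linf_ne (ι : E →+* ℂ) {s : ℂ} {k : ℤ} (hs : s = k) (hk : M.m ≤ k) : Linf M ι s ≠ 0 := by
  unfold Linf
  rw [Finset.prod_ne_zero_iff]
  intro σ _
  rw [Ne, Multiset.prod_eq_zero_iff]
  intro h
  obtain ⟨p, hp, hp'⟩ := Multiset.mem_map.1 h
  have hp1 := (Multiset.mem_filter.1 hp).2
  refine gamma_ne (s := s - p) (k := k - p) ?_ (by omega) hp'
  rw [hs]; push_cast; ring

lemma Linf_cont (ι : E →+* ℂ) {s : ℂ} {k : ℤ} (hs : s = k) (hk : M.m ≤ k) :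
    ContinuousAt (Linf M ι) s := by
  have hfun : Linf M ι = fun s => ∏ σ : F →+* ℂ,
      (((M.types σ ι).filter (fun p => p < M.m)).map fun p : ℤ => Complex.Gammaℂ (s - p)).prod := rfl
  rw [hfun]
  refine tendsto_finsetProd _ fun σ _ => ?_
  have key : ∀ t : Multiset ℤ, (∀ p ∈ t, p < M.m) →
      Tendsto (fun z : ℂ => (t.map fun p : ℤ => Complex.Gammaℂ (z - p)).prod) (𝓝 s)
        (𝓝 (t.map fun p : ℤ => Complex.Gammaℂ (s - p)).prod) := by
    intro t
    induction t using Multiset.induction with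
    | empty => intro _; simp
    | cons a t ih =>
      intro h
      simp only [Multiset.map_cons, Multiset.prod_cons]
      refine Tendsto.mul ?_ (ih fun p hp => h p (Multiset.mem_cons_of_mem hp))
      have ha := h a (Multiset.mem_cons_self a t)
      have h1 : ContinuousAt Complex.Gammaℂ (s - a) := by
        refine gamma_cont (k := k - a) ?_ (by omega)
        rw [hs]; push_cast; ring
      have h2 : ContinuousAt (fun z : ℂ => z - (a : ℂ)) s := by fun_prop
      exact ContinuousAt.comp (g := Complex.Gammaℂ) (f := fun z : ℂ => z - (a : ℂ)) h1 h2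
  exact key _ fun p hp => (Multiset.mem_filter.1 hp).2

/-- The value of the functional equation at the central pair. -/
lemma central (ι : E →+* ℂ) {ε : ℤ} {f : ℂ → ℂ} (hf : FunctionalEquation M ι ε f) {z z' : ℂ}
    (hz : Tendsto f (𝓝[≠] (M.m : ℂ)) (𝓝 z)) (hz' : Tendsto f (𝓝[≠] ((M.m : ℂ) + 1)) (𝓝 z'))
    (hN : (conductor M : ℂ) ≠ 0) :
    Linf M ι M.m * z = ε * (conductor M : ℂ) ^ ((1 : ℂ) / 2) * (Linf M ι ((M.m : ℂ) + 1) * z') := by
  have h1 := hf (M.m : ℂ)
  have hL : Tendsto (fun s => Linf M ι s * f s) (𝓝[≠] (M.m : ℂ)) (𝓝 (Linf M ι M.m * z)) :=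
    ((Linf_cont M ι rfl le_rfl).tendsto.mono_left nhdsWithin_le_nhds).mul hz
  have hmap : Tendsto (fun s : ℂ => 2 * (M.m : ℂ) + 1 - s) (𝓝[≠] (M.m : ℂ)) (𝓝[≠] ((M.m : ℂ) + 1)) := by
    apply tendsto_nhdsWithin_iff.2
    constructor
    · have : ContinuousAt (fun s : ℂ => 2 * (M.m : ℂ) + 1 - s) (M.m : ℂ) := by fun_prop
      have h := this.tendsto
      have e : 2 * (M.m : ℂ) + 1 - M.m = (M.m : ℂ) + 1 := by ring
      rw [e] at h
      exact h.mono_left nhdsWithin_le_nhds
    · filter_upwards [self_mem_nhdsWithin] with s hs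
      intro h
      apply hs
      have h' : 2 * (M.m : ℂ) + 1 - s = (M.m : ℂ) + 1 := h
      have : s = M.m := by linear_combination -h'
      exact this
  have hR : Tendsto (fun s => (ε : ℂ) * (conductor M : ℂ) ^ ((M.m : ℂ) + 1 / 2 - s) *
      (Linf M ι (2 * M.m + 1 - s) * f (2 * M.m + 1 - s))) (𝓝[≠] (M.m : ℂ))
      (𝓝 (ε * (conductor M : ℂ) ^ ((1 : ℂ) / 2) * (Linf M ι ((M.m : ℂ) + 1) * z'))) := by
    refine Tendsto.mul ?_ (Tendsto.mul ?_ ?_)
    · refine Tendsto.mul tendsto_const_nhds ?_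
      have h : ContinuousAt (fun s : ℂ => (conductor M : ℂ) ^ ((M.m : ℂ) + 1 / 2 - s)) (M.m : ℂ) := by
        apply ContinuousAt.const_cpow (by fun_prop) (Or.inl hN)
      have h2 := h.tendsto
      have e : (M.m : ℂ) + 1 / 2 - M.m = 1 / 2 := by ring
      simp only [e] at h2
      exact h2.mono_left nhdsWithin_le_nhds
    · have h := (Linf_cont M ι (s := (M.m : ℂ) + 1) (k := M.m + 1) (by push_cast; ring) (by omega)).tendsto
      exact h.comp (hmap.mono_right nhdsWithin_le_nhds)
    · exact hz'.comp hmap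
  exact tendsto_nhds_unique (hL.congr' h1) hR

end

end Pool.Agent.K9h86.CP
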