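import Pool.Agent.K9h86.RT.Df

/-!
# The central pair of critical values of self-dual motives: definitions
-/

set_option autoImplicit false

namespace Pool.Agent.K9h86.CP

open NumberField Polynomial Filter Topology IsDedekindDomain TensorProduct

/-- `𝔡` is the conductor of the quadratic (or trivial) character of the field `F(√b)` over `F`: the
relative discriminant of `F(√b)` over `F`. -/
def IsQuadraticConductor (F : Type) [Field F] [NumberField F] (b : F) (𝔡 : Ideal (𝓞 F)) : Prop :=
  ∃ (K : Type) (_ : Field K) (_ : NumberField K) (_ : Algebra F K) (y : K),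
    y ^ 2 = algebraMap F K b ∧ Algebra.adjoin F {y} = ⊤ ∧
      𝔡 = Ideal.relNorm (𝓞 F) (differentIdeal (𝓞 F) (𝓞 K))

/-- The data of a pure motive `M₀` of rank `n` and even weight `w = 2 m` over the number field `F`
with coefficients in `E` (a totally real field in the theorem), such that there is a non-degenerate
form `M₀ ⊗ M₀ → E(-w)` and such that the restriction of scalars `M` of `M₀` to `ℚ` has no middle
Hodge type. (For `E` totally real every polarised motive has such a form, which is symmetric.) -/
structure SelfDualMotive (F : Type) [Field F] [NumberField F] (E : Type) [Field E]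
    [NumberField E] where
  /-- half of the weight -/
  m : ℤ
  /-- the rank -/
  n : ℕ
  /-- the numbers `p` for the Hodge types `(p, w - p)` of `M₀` at the embedding `σ` of `F` and the
  embedding `ι` of `E`, every one as often as its Hodge number -/
  types : (F →+* ℂ) → (E →+* ℂ) → Multiset ℤ
  card_types : ∀ σ ι, Multiset.card (types σ ι) = n
  no_middle : ∀ σ ι, m ∉ types σ ι
  /-- `M₀` is dual to `M₀(w)`. -/
  self_dual : ∀ σ ι, (types σ ι).map (fun p => 2 * m - p) = types σ ι
  /-- the conductor of `M₀` -/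
  cond : Ideal (𝓞 F)
  cond_ne : cond ≠ ⊥
  /-- the polynomial `P_v`; the Euler factor of `M₀` at `v` is `P_v(N(v)^(-s))⁻¹` -/
  factor : HeightOneSpectrum (𝓞 F) → E[X]
  factor_zero : ∀ v, (factor v).coeff 0 = 1
  pure : ∀ v : HeightOneSpectrum (𝓞 F), ¬ v.asIdeal ∣ cond → (factor v).natDegree = n ∧
    ∀ (ι : E →+* ℂ) (β : ℂ), ((factor v).map ι).IsRoot β → ‖β‖ = (Ideal.absNorm v.asIdeal : ℝ) ^ (-m)
  /-- The determinant of `M₀` is, up to a Tate twist, the character of `F(√b)` over `F`. -/
  b : F
  b_ne : b ≠ 0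
  /-- the conductor of the determinant of `M₀` -/
  detCond : Ideal (𝓞 F)
  isCond : IsQuadraticConductor F b detCond
  /-- `(-1)^(n/2)` times the discriminant of the form on the Betti realisation of `M₀`. -/
  u : E
  /-- For a polarised motive the form on the Betti realisation has, at every `ι`, an even number of
  negative squares (`2` for every pair of Hodge types `(p, q)`, `(q, p)` with `(p - q) / 2` odd). -/
  u_sign : (∀ ι : E →+* ℂ, 0 < (ι u).re) ∨ ∀ ι : E →+* ℂ, (ι u).re < 0
  /-- The discriminant of the form on the de Rham realisation, an `E ⊗ F`-module, is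
  `(-1)^(n/2) u ⊗ b` up to squares, by the comparison for the determinant of `M₀`; and it is
  `(-1)^(n/2)` up to squares, because there is no middle Hodge type, so that half of the Hodge
  filtration is a Lagrangian submodule. -/
  lagrangian : ∃ β : E ⊗[ℚ] F, β * β = u ⊗ₜ[ℚ] b
  /-- Theorem of Serre: at every prime the exponents of the conductors of an orthogonal (or
  symplectic) representation and of its determinant are congruent modulo two. -/
  parity : ∃ 𝔟 : Ideal (𝓞 F), cond * detCond = 𝔟 ^ 2

section defs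

variable {F : Type} [Field F] [NumberField F] {E : Type} [Field E] [NumberField E]
  (M : SelfDualMotive F E)
  (ι : E →+* ℂ)

/-- The archimedean factor of the completed L-function of `M`: the product of `Γ_ℂ(s - p)` over the
Hodge types `(p, q)` of `M` with `p < q`; `Γ_ℂ(s) = 2 (2π)^(-s) Γ(s)`. -/
noncomputable def Linf (s : ℂ) : ℂ :=
  ∏ σ : F →+* ℂ, (((M.types σ ι).filter (fun p => p < M.m)).map fun p : ℤ => Complex.Gammaℂ (s - p)).prod

/-- `f` is the meromorphic continuation to `ℂ` of the (finite part of the) L-function of `(M, ι)`,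
which is the Euler product for `Re s > 1 + w / 2`. -/
def IsL (f : ℂ → ℂ) : Prop :=
  (∀ s : ℂ, MeromorphicAt f s) ∧ ∀ s : ℂ, 1 + (M.m : ℝ) < s.re →
    HasProd (fun v : HeightOneSpectrum (𝓞 F) =>
      (((M.factor v).map ι).eval ((Ideal.absNorm v.asIdeal : ℂ) ^ (-s)))⁻¹) (f s)

/-- The conductor of `M` (over `ℚ`): `|D_F| ^ n` times the norm of the conductor of `M₀`. -/
noncomputable def conductor : ℕ := (discr F).natAbs ^ M.n * Ideal.absNorm M.cond

/-- **The functional equation** of the completed L-function `Λ` of a self-dual motive, with the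
sign `ε`: `Λ(s) = ε N ^ ((w + 1) / 2 - s) Λ(w + 1 - s)`, an equality of meromorphic functions. -/
def FunctionalEquation (ε : ℤ) (f : ℂ → ℂ) : Prop :=
  ∀ s : ℂ, ∀ᶠ z in 𝓝[≠] s, Linf M ι z * f z =
    ε * (conductor M : ℂ) ^ ((M.m : ℂ) + 1 / 2 - z) *
      (Linf M ι (2 * M.m + 1 - z) * f (2 * M.m + 1 - z))

/-- **The equality of Q1 for the integers `m` and `m + 1`**, where `2 m` is the weight, and the
continuations `f ι` of the L-functions: if they have the values `z ι` and `z' ι ≠ 0` at `m` and at
`m + 1`, then `L(m, M) / L(m + 1, M) = (1 ⊗ i^(d/2) Δ)^n` in `(E ⊗ ℂ) / Eˣ`, for the completed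
L-functions and every choice `δ` of the square root `Δ = Δ_F`; `d` is the degree of `F`. -/
def CentralEquality {F : Type} [Field F] [NumberField F] {E : Type} [Field E] [NumberField E]
    (M : SelfDualMotive F E) (f : (E →+* ℂ) → ℂ → ℂ) : Prop :=
  ∀ z z' : (E →+* ℂ) → ℂ, (∀ ι, Tendsto (f ι) (𝓝[≠] (M.m : ℂ)) (𝓝 (z ι))) →
    (∀ ι, Tendsto (f ι) (𝓝[≠] ((M.m : ℂ) + 1)) (𝓝 (z' ι))) → (∀ ι, z' ι ≠ 0) →
    ∀ δ : ℂ, RT.IsDelta F δ → ∃ e : E, e ≠ 0 ∧ ∀ ι : E →+* ℂ,
      (Linf M ι M.m * z ι) / (Linf M ι ((M.m : ℂ) + 1) * z' ι) =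
        ι e * (Complex.I ^ (Module.finrank ℚ F / 2) * δ) ^ M.n

end defs

end Pool.Agent.K9h86.CP
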