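import Pool.Agent.K9h86.CP.Df

set_option autoImplicit false

namespace Pool.Agent.K9h86.CP

open NumberField Polynomial Module

section

variable {F K : Type} [Field F] [NumberField F] [Field K] [NumberField K] [Algebra F K]

lemma isSquare_discr_of_basis (c : Basis (Fin 2) F K) (a : F) (y : K) (hc0 : c 0 = 1) (hc1 : c 1 = y)
    (hy : y ^ 2 = algebraMap F K a) (hty : Algebra.trace F K y = 0)
    (ha : IsSquare (Algebra.norm ℚ a)) :
    IsSquare (discr K : ℚ) := by
  classical
  set b := integralBasis F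
  set B := b.smulTower c with hB
  have hfin : finrank F K = 2 := by rw [finrank_eq_card_basis c]; simp
  have ht1 : Algebra.trace F K 1 = 2 := by
    have := Algebra.trace_algebraMap (R := F) (S := K) 1
    rw [map_one, hfin] at this
    simpa using this
  have hty2 : Algebra.trace F K (y * y) = 2 * a := by
    rw [← pow_two, hy, Algebra.trace_algebraMap, hfin]
    simp
  set T := Algebra.traceMatrix ℚ (b : _ → F) with hT
  set L := Algebra.leftMulMatrix b a with hL
  set D : Fin 2 → Matrix (Free.ChooseBasisIndex ℤ (𝓞 F)) (Free.ChooseBasisIndex ℤ (𝓞 F)) ℚ :=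
    ![(2 : ℚ) • T, ((2 : ℚ) • T) * L] with hD
  have hTL : ∀ i j, (T * L) i j = Algebra.trace ℚ F (b i * b j * a) := by
    intro i j
    have h1 : a * b j = ∑ k, L k j • b k := by
      conv_lhs => rw [← b.sum_repr (a * b j)]
      refine Finset.sum_congr rfl fun k _ => ?_
      rw [hL, Algebra.leftMulMatrix_eq_repr_mul]
    rw [mul_assoc, mul_comm (b j) a, h1, Finset.mul_sum, map_sum, Matrix.mul_apply]
    refine Finset.sum_congr rfl fun k _ => ?_
    rw [mul_smul_comm, map_smul, smul_eq_mul, hT, Algebra.traceMatrix_apply,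
      Algebra.traceForm_apply, mul_comm]
  have hmat : Algebra.traceMatrix ℚ (B : _ → K) = Matrix.blockDiagonal D := by
    ext ⟨i, r⟩ ⟨j, t⟩
    rw [Algebra.traceMatrix_apply, Algebra.traceForm_apply, Matrix.blockDiagonal_apply, hB,
      Basis.smulTower_apply, Basis.smulTower_apply, smul_mul_smul_comm,
      ← Algebra.trace_trace (S := F), map_smul, smul_eq_mul]
    fin_cases r <;> fin_cases t
    · have h1 : Algebra.trace F K (c 0 * c 0) = algebraMap ℚ F 2 := by
        rw [hc0, one_mul, ht1]; simp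
      show Algebra.trace ℚ F (b i * b j * Algebra.trace F K (c 0 * c 0)) = _
      rw [h1, mul_comm _ (algebraMap ℚ F 2), ← Algebra.smul_def, map_smul]
      simp [hD, hT, Algebra.traceMatrix_apply, Algebra.traceForm_apply]
    · simp [hc0, hc1, hty]
    · simp [hc0, hc1, hty]
    · have h1 : Algebra.trace F K (c 1 * c 1) = 2 * a := by
        rw [hc1, hty2]
      show Algebra.trace ℚ F (b i * b j * Algebra.trace F K (c 1 * c 1)) = _
      have h2 : b i * b j * (2 * a) = (2 : ℚ) • (b i * b j * a) := by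
        rw [Algebra.smul_def]; simp; ring
      rw [h1, h2, map_smul, ← hTL, smul_eq_mul]
      simp [hD]
  have hdB : IsSquare (Algebra.discr ℚ (B : _ → K)) := by
    rw [Algebra.discr_def, hmat, Matrix.det_blockDiagonal, Fin.prod_univ_two]
    have e0 : D 0 = (2 : ℚ) • T := rfl
    have e1 : D 1 = ((2 : ℚ) • T) * L := rfl
    rw [e0, e1, Matrix.det_mul, ← mul_assoc]
    refine IsSquare.mul ⟨_, rfl⟩ ?_
    rw [hL, ← Algebra.norm_eq_matrix_det]
    exact ha
  have hcard : Fintype.card (Free.ChooseBasisIndex ℤ (𝓞 F) × Fin 2) =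
      Fintype.card (Free.ChooseBasisIndex ℤ (𝓞 K)) := by
    rw [← finrank_eq_card_basis B, ← finrank_eq_card_basis (integralBasis K)]
  set e := Fintype.equivOfCardEq hcard
  have h4 : Algebra.discr ℚ ((B : _ → K) ∘ e.symm) = Algebra.discr ℚ (B : _ → K) :=
    Algebra.discr_reindex (A := ℚ) B e
  set P := (integralBasis K).toMatrix ((B : _ → K) ∘ e.symm) with hP
  have h5 : (B : _ → K) ∘ e.symm = Matrix.vecMul (integralBasis K : _ → K) (P.map (algebraMap ℚ K)) :=
    (Basis.toMatrix_map_vecMul (integralBasis K) ((B : _ → K) ∘ e.symm)).symm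
  have h6 : Algebra.discr ℚ (B : _ → K) = P.det ^ 2 * (discr K : ℚ) := by
    rw [← h4, h5, Algebra.discr_of_matrix_vecMul, coe_discr]
  have h7 : Algebra.discr ℚ (B : _ → K) ≠ 0 := Algebra.discr_not_zero_of_basis ℚ B
  have h8 : P.det ≠ 0 := by
    intro h
    rw [h6, h] at h7
    simp at h7
  obtain ⟨r, hr⟩ := hdB
  refine ⟨r / P.det, ?_⟩
  rw [h6] at hr
  field_simp
  linarith

theorem isSquare_different {a : F} {y : K} (hy : y ^ 2 = algebraMap F K a)
    (hadj : Algebra.adjoin F {y} = ⊤) (ha : IsSquare (Algebra.norm ℚ a)) :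
    IsSquare (Ideal.absNorm (differentIdeal (𝓞 F) (𝓞 K))) := by
  have hform := natAbs_discr_eq_absNorm_differentIdeal_mul_natAbs_discr_pow F (𝓞 F) K (𝓞 K)
  have hF : (discr F).natAbs ≠ 0 := by
    simpa using discr_ne_zero F
  have hint : IsIntegral F y := Algebra.IsIntegral.isIntegral y
  by_cases hr : y ∈ (algebraMap F K).range
  · -- `K = F`
    have hsurj : Function.Surjective (algebraMap F K) := by
      have h1 : Algebra.adjoin F {y} = (⊥ : Subalgebra F K) := by
        rw [eq_bot_iff, Algebra.adjoin_le_iff, Set.singleton_subset_iff]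
        obtain ⟨x, hx⟩ := hr
        exact Algebra.mem_bot.2 ⟨x, hx⟩
      rw [h1] at hadj
      exact Algebra.surjective_algebraMap_iff.2 hadj.symm
    have e : F ≃ₐ[ℚ] K := AlgEquiv.ofBijective ((Algebra.ofId F K).restrictScalars ℚ)
      ⟨(algebraMap F K).injective, hsurj⟩
    have h2 : discr F = discr K := discr_eq_discr_of_algEquiv F e
    have h3 : finrank F K = 1 := by
      have := finrank_mul_finrank ℚ F K
      have h4 := LinearEquiv.finrank_eq e.toLinearEquiv
      have h5 : 0 < finrank ℚ F := finrank_pos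
      have h6 : finrank ℚ F * finrank F K = finrank ℚ F * 1 := by rw [this, mul_one, h4]
      exact Nat.eq_of_mul_eq_mul_left h5 h6
    rw [← h2, h3, pow_one] at hform
    have h7 : Ideal.absNorm (differentIdeal (𝓞 F) (𝓞 K)) = 1 := by
      have h8 : 1 * (discr F).natAbs = Ideal.absNorm (differentIdeal (𝓞 F) (𝓞 K)) * (discr F).natAbs := by
        rw [one_mul]; exact hform
      exact (Nat.eq_of_mul_eq_mul_right (Nat.pos_of_ne_zero hF) h8).symm
    rw [h7]
    exact ⟨1, rfl⟩
  · -- quadratic
    have hmin : minpoly F y = X ^ 2 - C a := by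
      have hmon : (X ^ 2 - C a).Monic := monic_X_pow_sub_C _ two_ne_zero
      have hdeg : (X ^ 2 - C a).natDegree = 2 := natDegree_X_pow_sub_C
      have hdvd : minpoly F y ∣ X ^ 2 - C a := by
        apply minpoly.dvd
        simp [hy]
      have h2 : 2 ≤ (minpoly F y).natDegree := (minpoly.two_le_natDegree_iff hint).2 hr
      exact (eq_of_monic_of_dvd_of_natDegree_le (minpoly.monic hint) hmon hdvd (by rw [hdeg]; exact h2)).symm
    set pb := PowerBasis.ofAdjoinEqTop hint hadj with hpb
    have hgen : pb.gen = y := PowerBasis.ofAdjoinEqTop_gen hint hadj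
    have hdim : pb.dim = 2 := by
      rw [← pb.natDegree_minpoly, hgen, hmin, natDegree_X_pow_sub_C]
    have hfin : finrank F K = 2 := by rw [pb.finrank, hdim]
    have hty : Algebra.trace F K y = 0 := by
      rw [← hgen, PowerBasis.trace_gen_eq_nextCoeff_minpoly, hgen, hmin]
      have : (X ^ 2 - C a).nextCoeff = 0 := by
        rw [nextCoeff_of_natDegree_pos (by rw [natDegree_X_pow_sub_C]; norm_num), natDegree_X_pow_sub_C]
        simp [coeff_X_pow, coeff_C]
      rw [this, neg_zero]
    set c : Basis (Fin 2) F K := pb.basis.reindex (finCongr hdim) with hc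
    have hc0 : c 0 = 1 := by simp [hc]
    have hc1 : c 1 = y := by simp [hc, hgen]
    have hsq := isSquare_discr_of_basis c a y hc0 hc1 hy hty ha
    rw [Rat.isSquare_intCast_iff] at hsq
    obtain ⟨r, hr'⟩ := hsq
    rw [hfin, hr', Int.natAbs_mul, ← pow_two] at hform
    have h1 : (discr F).natAbs ^ 2 ∣ r.natAbs ^ 2 := ⟨_, by rw [hform]; ring⟩
    have h2 : (discr F).natAbs ∣ r.natAbs := (Nat.pow_dvd_pow_iff two_ne_zero).1 h1
    obtain ⟨t, ht⟩ := h2
    refine ⟨t, ?_⟩
    rw [ht] at hform
    have h3 : (discr F).natAbs ^ 2 * (t * t) = (discr F).natAbs ^ 2 *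
        Ideal.absNorm (differentIdeal (𝓞 F) (𝓞 K)) := by
      rw [mul_comm ((discr F).natAbs ^ 2) (Ideal.absNorm _), ← hform]; ring
    exact (Nat.eq_of_mul_eq_mul_left (Nat.pos_of_ne_zero (pow_ne_zero 2 hF)) h3).symm

end

end Pool.Agent.K9h86.CP
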