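import Mathlib

/-! # The norm form of a totally complex field is nonnegative on `ℝ^κ` (leaf of helper86) -/

set_option autoImplicit false
open NumberField ComplexConjugate

namespace Pool.Agent.K9h86.CP

theorem n1_norm_nonneg {F : Type} [Field F] [NumberField F] [NumberField.IsTotallyComplex F]
    (x : F) : 0 ≤ Algebra.norm ℚ x := by
  classical
  by_cases hx : x = 0
  · rw [hx]
    rw [Algebra.norm_zero]
  have h1 := Algebra.norm_eq_prod_embeddings ℚ ℂ x
  have hσ : ∀ σ : F →ₐ[ℚ] ℂ, (‖σ x‖ : ℂ) ≠ 0 := by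
    intro σ
    have : σ x ≠ 0 := (map_ne_zero σ).2 hx
    exact_mod_cast norm_ne_zero_iff.2 this
  have h2 : ∏ σ : F →ₐ[ℚ] ℂ, (σ x / (‖σ x‖ : ℂ)) = 1 := by
    refine Finset.prod_involution
      (fun σ _ => (ComplexEmbedding.conjugate (σ : F →+* ℂ)).toRatAlgHom) ?_ ?_ ?_ ?_
    · intro σ _
      have e1 : ((ComplexEmbedding.conjugate (σ : F →+* ℂ)).toRatAlgHom) x = conj (σ x) := rfl
      rw [e1, RCLike.norm_conj, div_mul_div_comm, Complex.mul_conj, Complex.normSq_eq_norm_sq]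
      have := hσ σ
      push_cast
      field_simp
    · intro σ _ _ h
      have h3 : ComplexEmbedding.IsReal (σ : F →+* ℂ) := by
        rw [ComplexEmbedding.isReal_iff]
        ext y
        exact congrArg (fun τ : F →ₐ[ℚ] ℂ => τ y) h
      exact IsTotallyComplex.complexEmbedding_not_isReal _ h3
    · intro σ _
      exact Finset.mem_univ _
    · intro σ _
      ext y
      show conj (conj (σ y)) = σ y
      exact Complex.conj_conj _
  have h3 : (algebraMap ℚ ℂ (Algebra.norm ℚ x)) = ((∏ σ : F →ₐ[ℚ] ℂ, ‖σ x‖ : ℝ) : ℂ) := by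
    rw [h1]
    have : ∀ σ : F →ₐ[ℚ] ℂ, σ x = (‖σ x‖ : ℂ) * (σ x / (‖σ x‖ : ℂ)) := fun σ => by
      rw [mul_div_cancel₀ _ (hσ σ)]
    rw [Finset.prod_congr rfl fun σ _ => this σ, Finset.prod_mul_distrib, h2, mul_one,
      Complex.ofReal_prod]
  have h4 : ((Algebra.norm ℚ x : ℚ) : ℝ) = ∏ σ : F →ₐ[ℚ] ℂ, ‖σ x‖ := by
    have h5 : (((Algebra.norm ℚ x : ℚ) : ℝ) : ℂ) = ((∏ σ : F →ₐ[ℚ] ℂ, ‖σ x‖ : ℝ) : ℂ) := by
      rw [← h3]
      simp
    exact_mod_cast h5
  have h6 : (0 : ℝ) ≤ ((Algebra.norm ℚ x : ℚ) : ℝ) := by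
    rw [h4]
    positivity
  exact_mod_cast h6

theorem norm_form_nonneg {F : Type} [Field F] [NumberField F] [NumberField.IsTotallyComplex F]
    {κ : Type} [Fintype κ] [DecidableEq κ] (b : Module.Basis κ ℚ F) (t : κ → ℝ) :
    0 ≤ (∑ j, t j • (Algebra.leftMulMatrix b (b j)).map (algebraMap ℚ ℝ)).det := by
  have hd : DenseRange (fun (x : κ → ℚ) (j : κ) => ((x j : ℚ) : ℝ)) :=
    DenseRange.piMap (fun _ => Rat.denseRange_cast)
  refine hd.induction_on (p := fun t : κ → ℝ =>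
    0 ≤ (∑ j, t j • (Algebra.leftMulMatrix b (b j)).map (algebraMap ℚ ℝ)).det) t ?_ ?_
  · refine isClosed_le continuous_const ?_
    refine Continuous.matrix_det ?_
    exact continuous_finsetSum _ fun j _ => (continuous_apply j).smul continuous_const
  · intro x
    have h1 : (∑ j, ((x j : ℚ) : ℝ) • (Algebra.leftMulMatrix b (b j)).map (algebraMap ℚ ℝ)) =
        (Algebra.leftMulMatrix b (∑ j, x j • b j)).map (algebraMap ℚ ℝ) := by
      rw [map_sum]
      ext k l
      simp only [Matrix.sum_apply, Matrix.smul_apply, Matrix.map_apply, map_smul, smul_eq_mul,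
        map_sum, map_mul]
      rfl
    show 0 ≤ (∑ j, ((x j : ℚ) : ℝ) • (Algebra.leftMulMatrix b (b j)).map (algebraMap ℚ ℝ)).det
    have h2 := n1_norm_nonneg (∑ j, x j • b j)
    rw [Algebra.norm_eq_matrix_det b] at h2
    have h3 : ((Algebra.leftMulMatrix b (∑ j, x j • b j)).map (algebraMap ℚ ℝ)).det =
        algebraMap ℚ ℝ (Algebra.leftMulMatrix b (∑ j, x j • b j)).det := by
      rw [RingHom.map_det]
      rfl
    rw [h1, h3, eq_ratCast]
    exact_mod_cast h2

end Pool.Agent.K9h86.CP
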