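import Mathlib

set_option autoImplicit false

namespace Pool.Agent.K9h86.CP

open NumberField Module
open scoped TensorProduct

section

variable {F E : Type} [Field F] [NumberField F] [Field E] [NumberField E]

variable {κ : Type} [Fintype κ] [DecidableEq κ] (b : Basis κ ℚ F)

lemma leftMul_one_tmul (x : F) :
    Algebra.leftMulMatrix (Algebra.TensorProduct.basis E b) ((1 : E) ⊗ₜ[ℚ] x) =
      (Algebra.leftMulMatrix b x).map (algebraMap ℚ E) := by
  ext i l
  rw [Algebra.leftMulMatrix_eq_repr_mul, Matrix.map_apply, Algebra.leftMulMatrix_eq_repr_mul,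
    Algebra.TensorProduct.basis_apply, Algebra.TensorProduct.tmul_mul_tmul, mul_one,
    Algebra.TensorProduct.basis_repr_tmul]
  simp [Algebra.smul_def]

lemma norm_one_tmul (x : F) :
    Algebra.norm E ((1 : E) ⊗ₜ[ℚ] x) = algebraMap ℚ E (Algebra.norm ℚ x) := by
  classical
  rw [Algebra.norm_eq_matrix_det (Algebra.TensorProduct.basis E (integralBasis F)),
    leftMul_one_tmul, Algebra.norm_eq_matrix_det (integralBasis F)]
  exact (RingHom.map_det (algebraMap ℚ E) _).symm

lemma norm_tmul (u : E) (x : F) :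
    Algebra.norm E (u ⊗ₜ[ℚ] x) = u ^ finrank ℚ F * algebraMap ℚ E (Algebra.norm ℚ x) := by
  have h1 : (u ⊗ₜ[ℚ] x : E ⊗[ℚ] F) = algebraMap E (E ⊗[ℚ] F) u * ((1 : E) ⊗ₜ[ℚ] x) := by
    rw [Algebra.TensorProduct.algebraMap_apply, Algebra.TensorProduct.tmul_mul_tmul]
    simp
  rw [h1, map_mul, norm_one_tmul, Algebra.norm_algebraMap]
  congr 2
  rw [finrank_eq_card_basis (Algebra.TensorProduct.basis E (integralBasis F)),
    finrank_eq_card_basis (integralBasis F)]

/-- the norm at a real embedding is a value of the norm form -/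
lemma map_norm (ι : E →+* ℂ) (hι : ∀ x : E, (ι x).im = 0) (β : E ⊗[ℚ] F) :
    ι (Algebra.norm E β) = (((∑ j, (ι ((Algebra.TensorProduct.basis E b).repr β j)).re •
      (Algebra.leftMulMatrix b (b j)).map (algebraMap ℚ ℝ)).det : ℝ) : ℂ) := by
  rw [Algebra.norm_eq_matrix_det (Algebra.TensorProduct.basis E b)]
  rw [RingHom.map_det]
  have h2 : (((∑ j, (ι ((Algebra.TensorProduct.basis E b).repr β j)).re •
      (Algebra.leftMulMatrix b (b j)).map (algebraMap ℚ ℝ)).det : ℝ) : ℂ) =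
      ((algebraMap ℝ ℂ).mapMatrix (∑ j, (ι ((Algebra.TensorProduct.basis E b).repr β j)).re •
      (Algebra.leftMulMatrix b (b j)).map (algebraMap ℚ ℝ))).det := by
    rw [← RingHom.map_det]; rfl
  rw [h2]
  congr 1
  have h3 : Algebra.leftMulMatrix (Algebra.TensorProduct.basis E b) β =
      ∑ j, ((Algebra.TensorProduct.basis E b).repr β j) •
        (Algebra.leftMulMatrix b (b j)).map (algebraMap ℚ E) := by
    conv_lhs => rw [← (Algebra.TensorProduct.basis E b).sum_repr β]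
    rw [map_sum]
    refine Finset.sum_congr rfl fun j _ => ?_
    rw [map_smul, Algebra.TensorProduct.basis_apply, leftMul_one_tmul]
  rw [h3]
  ext i l
  simp only [RingHom.mapMatrix_apply, Matrix.map_apply, Matrix.sum_apply, Matrix.smul_apply,
    smul_eq_mul, map_sum, map_mul]
  refine Finset.sum_congr rfl fun j _ => ?_
  congr 1
  · exact (Complex.ext (by simp) (by simp [hι]))
  · simp

/-- norms from a totally complex field -/
theorem norm_square
    (hpos : ∀ t : κ → ℝ, 0 ≤ (∑ j, t j • (Algebra.leftMulMatrix b (b j)).map (algebraMap ℚ ℝ)).det)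
    (hd : Even (finrank ℚ F)) (hE : ∀ (ι : E →+* ℂ) (x : E), (ι x).im = 0) (x : F) (hx : x ≠ 0)
    (u : E) (hu : (∀ ι : E →+* ℂ, 0 < (ι u).re) ∨ (∀ ι : E →+* ℂ, (ι u).re < 0))
    (β : E ⊗[ℚ] F) (hβ : β * β = u ⊗ₜ x) : IsSquare (Algebra.norm ℚ x) := by
  obtain ⟨ι₀⟩ : Nonempty (E →+* ℂ) := inferInstance
  have hu0 : u ≠ 0 := by
    rintro rfl
    rcases hu with h | h <;> simpa using h ι₀
  obtain ⟨k, hk⟩ := hd
  set N := Algebra.norm E β with hN
  have hNN : N * N = u ^ finrank ℚ F * algebraMap ℚ E (Algebra.norm ℚ x) := by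
    rw [hN, ← map_mul, hβ, norm_tmul]
  set c := N / u ^ k with hc
  have hcc : c * c = algebraMap ℚ E (Algebra.norm ℚ x) := by
    rw [hc, div_mul_div_comm, hNN, ← pow_add, ← hk]
    field_simp
  have hnx : Algebra.norm ℚ x ≠ 0 := by rwa [Ne, Algebra.norm_eq_zero_iff]
  have hc0 : c ≠ 0 := by
    rintro h
    rw [h, mul_zero] at hcc
    exact hnx ((_root_.map_eq_zero _).1 hcc.symm)
  have hN0 : N ≠ 0 := by
    intro h
    rw [hc, h, zero_div] at hc0
    exact hc0 rfl
  -- all values are real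
  have hre : ∀ (ι : E →+* ℂ) (v : E), ι v = ((ι v).re : ℂ) := fun ι v => Complex.ext (by simp) (by simp [hE])
  have hNpos : ∀ ι : E →+* ℂ, 0 < (ι N).re := by
    intro ι
    have h1 := map_norm b ι (hE ι) β
    have h2 : (ι N).re = (∑ j, (ι ((Algebra.TensorProduct.basis E b).repr β j)).re •
      (Algebra.leftMulMatrix b (b j)).map (algebraMap ℚ ℝ)).det := by
      rw [hN, h1, Complex.ofReal_re]
    have h3 : 0 ≤ (ι N).re := by rw [h2]; exact hpos _
    have h4 : (ι N).re ≠ 0 := by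
      intro h
      apply hN0
      apply ι.injective
      rw [map_zero, hre ι N, h, Complex.ofReal_zero]
    exact lt_of_le_of_ne h3 (Ne.symm h4)
  have hcm : ∀ ι : E →+* ℂ, (ι c).re = (ι N).re / (ι u).re ^ k := by
    intro ι
    have h1 : ι c = ι N / ι u ^ k := by rw [hc, map_div₀, map_pow]
    rw [hre ι N, hre ι u, ← Complex.ofReal_pow, ← Complex.ofReal_div] at h1
    rw [h1, Complex.ofReal_re]
  -- squares agree and signs agree
  have hsq : ∀ ι : E →+* ℂ, (ι c).re ^ 2 = (Algebra.norm ℚ x : ℝ) := by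
    intro ι
    have h1 : ι c * ι c = ((Algebra.norm ℚ x : ℚ) : ℂ) := by rw [← map_mul, hcc]; simp
    rw [hre ι c, ← Complex.ofReal_mul] at h1
    have h2 : (((ι c).re * (ι c).re : ℝ) : ℂ) = ((Algebra.norm ℚ x : ℝ) : ℂ) := by
      rw [h1]; simp
    have h3 := Complex.ofReal_injective h2
    rw [pow_two]; exact h3
  have hsame : ∀ ι : E →+* ℂ, (ι c).re = (ι₀ c).re := by
    intro ι
    have h1 : (ι c).re ^ 2 = (ι₀ c).re ^ 2 := by rw [hsq, hsq]
    have h2 : 0 < (ι c).re * (ι₀ c).re := by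
      rw [hcm, hcm, div_mul_div_comm]
      apply div_pos (mul_pos (hNpos ι) (hNpos ι₀))
      rw [← mul_pow]
      apply pow_pos
      rcases hu with h | h
      · exact mul_pos (h ι) (h ι₀)
      · exact mul_pos_of_neg_of_neg (h ι) (h ι₀)
    rcases sq_eq_sq_iff_eq_or_eq_neg.1 h1 with h | h
    · exact h
    · rw [h] at h2
      nlinarith [sq_nonneg (ι₀ c).re]
  -- so `c` is rational
  have htr : algebraMap ℚ ℂ (Algebra.trace ℚ E c) = ∑ σ : E →ₐ[ℚ] ℂ, σ c := trace_eq_sum_embeddings ℂ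
  have h5 : ∀ σ : E →ₐ[ℚ] ℂ, σ c = ι₀ c := by
    intro σ
    have h := hsame (σ : E →+* ℂ)
    have e1 := hre (σ : E →+* ℂ) c
    have e2 := hre ι₀ c
    rw [e2, ← h, ← e1]
    rfl
  rw [Finset.sum_congr rfl fun σ _ => h5 σ, Finset.sum_const, Finset.card_univ, nsmul_eq_mul] at htr
  have hcard : (Fintype.card (E →ₐ[ℚ] ℂ) : ℂ) ≠ 0 := by
    have : Nonempty (E →ₐ[ℚ] ℂ) := ⟨ι₀.toRatAlgHom⟩
    exact_mod_cast Fintype.card_ne_zero
  set r : ℚ := Algebra.trace ℚ E c / Fintype.card (E →ₐ[ℚ] ℂ) with hr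
  have h6 : ι₀ c = ι₀ (algebraMap ℚ E r) := by
    have : ι₀ (algebraMap ℚ E r) = (r : ℂ) := by simp
    rw [this, hr]
    push_cast
    rw [eq_div_iff hcard, mul_comm, ← htr]
    simp
  have h7 : c = algebraMap ℚ E r := ι₀.injective h6
  refine ⟨r, ?_⟩
  apply (algebraMap ℚ E).injective
  rw [← hcc, h7, map_mul]

end

end Pool.Agent.K9h86.CP
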