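import Pool.Agent.K9h86.CP.An
import Pool.Agent.K9h86.CP.Di
import Pool.Agent.K9h86.CP.N1
import Pool.Agent.K9h86.CP.N2

set_option autoImplicit false

namespace Pool.Agent.K9h86.CP

open NumberField Polynomial Filter Topology IsDedekindDomain Module

section

variable {F : Type} [Field F] [NumberField F]

lemma exists_delta (F : Type) [Field F] [NumberField F] : ∃ δ : ℂ, RT.IsDelta F δ := by
  by_cases h : ∃ (D : maximalRealSubfield F) (y : F), RT.IsCMElement F D y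
  · obtain ⟨D, y, hDy⟩ := h
    obtain ⟨r, hr⟩ := IsAlgClosed.exists_pow_nat_eq ((Algebra.norm ℚ D : ℚ) : ℂ) (n := 2) two_pos
    exact ⟨_, Or.inl ⟨D, y, r, hDy, hr, rfl⟩⟩
  · exact ⟨1, Or.inr ⟨fun D y hDy => h ⟨D, y, hDy⟩, rfl⟩⟩

lemma delta_sq {δ : ℂ} (h : RT.IsDelta F δ) : ∃ q : ℚ, q ≠ 0 ∧ δ ^ 2 = (q : ℂ) := by
  rcases h with ⟨D, y, r, hDy, hr, rfl⟩ | ⟨-, rfl⟩
  · refine ⟨(Algebra.norm ℚ D) ^ (finrank (maximalRealSubfield F) F / 2), pow_ne_zero _ ?_, ?_⟩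
    · rw [Ne, Algebra.norm_eq_zero_iff]
      intro hD
      obtain ⟨φ⟩ : Nonempty (F →+* ℂ) := inferInstance
      have := hDy.1 φ
      rw [hD] at this
      simp at this
    · rw [← pow_mul, mul_comm, pow_mul, hr]
      push_cast
      rfl
  · exact ⟨1, one_ne_zero, by simp⟩

variable {E : Type} [Field E] [NumberField E] (M : SelfDualMotive F E)

lemma isSquare_norm_b [IsTotallyComplex F] [IsTotallyReal E] (hd : Even (finrank ℚ F)) :
    IsSquare (Algebra.norm ℚ M.b) := by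
  obtain ⟨β, hβ⟩ := M.lagrangian
  refine norm_square (integralBasis F) (fun t => norm_form_nonneg (integralBasis F) t) hd ?_ M.b
    M.b_ne M.u M.u_sign β hβ
  intro ι x
  have h : ComplexEmbedding.IsReal ι := IsTotallyReal.complexEmbedding_isReal ι
  exact Complex.conj_eq_iff_im.1 (by
    have := congrArg (fun τ : E →+* ℂ => τ x) (ComplexEmbedding.isReal_iff.1 h)
    exact this)

lemma isSquare_norm_cond [IsTotallyComplex F] [IsTotallyReal E] (hd : Even (finrank ℚ F)) :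
    IsSquare (Ideal.absNorm M.cond) := by
  obtain ⟨𝔟, hb⟩ := M.parity
  obtain ⟨K, _, _, _, y, hy, hadj, hD⟩ := M.isCond
  obtain ⟨t, ht⟩ := isSquare_different (F := F) (K := K) hy hadj (isSquare_norm_b M hd)
  have h1 : Ideal.absNorm M.detCond = t * t := by
    rw [hD, Ideal.absNorm_relNorm, ht]
  have hdiff : differentIdeal (𝓞 F) (𝓞 K) ≠ ⊥ := differentIdeal_ne_bot
  have ht0 : t ≠ 0 := by
    rintro rfl
    apply hdiff
    rw [← Ideal.absNorm_eq_zero_iff, ht]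
  have h2 : Ideal.absNorm M.cond * (t * t) = Ideal.absNorm 𝔟 ^ 2 := by
    rw [← h1, ← map_mul, hb, map_pow]
  have h3 : t ^ 2 ∣ Ideal.absNorm 𝔟 ^ 2 := ⟨Ideal.absNorm M.cond, by rw [← h2]; ring⟩
  obtain ⟨v, hv⟩ := (Nat.pow_dvd_pow_iff two_ne_zero).1 h3
  refine ⟨v, ?_⟩
  rw [hv] at h2
  have h4 : (t * t) * Ideal.absNorm M.cond = (t * t) * (v * v) := by
    rw [mul_comm (t * t), h2]; ring
  exact Nat.eq_of_mul_eq_mul_left (Nat.pos_of_ne_zero (mul_ne_zero ht0 ht0)) h4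

theorem main [IsTotallyComplex F] [IsTotallyReal E] {ε : ℤ} (hε : ε = 1 ∨ ε = -1)
    {f : (E →+* ℂ) → ℂ → ℂ} (hfe : ∀ ι, FunctionalEquation M ι ε (f ι)) : CentralEquality M f := by
  intro z z' hz hz' hz0 δ hD
  have hd : Even (finrank ℚ F) := by
    rw [IsTotallyComplex.finrank]
    exact even_two_mul _
  obtain ⟨σ⟩ : Nonempty (F →+* ℂ) := inferInstance
  obtain ⟨ι₀⟩ : Nonempty (E →+* ℂ) := inferInstance
  obtain ⟨k, hk⟩ := even_rank M σ ι₀
  obtain ⟨q, hq, hδ⟩ := delta_sq hD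
  obtain ⟨s, hs⟩ := isSquare_norm_cond M hd
  have hs0 : s ≠ 0 := by
    rintro rfl
    rw [mul_zero, Ideal.absNorm_eq_zero_iff] at hs
    exact M.cond_ne hs
  have hDF : (discr F).natAbs ≠ 0 := by simpa using discr_ne_zero F
  set N : ℕ := (discr F).natAbs ^ k * s with hN
  have hN0 : N ≠ 0 := mul_ne_zero (pow_ne_zero _ hDF) hs0
  have hcond : conductor M = N ^ 2 := by
    unfold conductor
    rw [hs, hk, hN, pow_add]
    ring
  set c : ℚ := ((-1) ^ (finrank ℚ F / 2) * q) ^ k with hc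
  have hc0 : c ≠ 0 := pow_ne_zero _ (mul_ne_zero (pow_ne_zero _ (by norm_num)) hq)
  have hcC : (Complex.I ^ (finrank ℚ F / 2) * δ) ^ M.n = (c : ℂ) := by
    rw [hk, ← two_mul, pow_mul, mul_pow, hδ, ← pow_mul, mul_comm (finrank ℚ F / 2) 2, pow_mul,
      Complex.I_sq, hc]
    push_cast
    rfl
  have hεQ : (ε : ℚ) ≠ 0 := by rcases hε with h | h <;> rw [h] <;> norm_num
  set e₀ : ℚ := ε * N / c with he
  have he0 : e₀ ≠ 0 := div_ne_zero (mul_ne_zero hεQ (by exact_mod_cast hN0)) hc0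
  refine ⟨algebraMap ℚ E e₀, (_root_.map_ne_zero _).2 he0, fun ι => ?_⟩
  have h1 := central M ι (hfe ι) (hz ι) (hz' ι) (by rw [hcond]; exact_mod_cast pow_ne_zero 2 hN0)
  have hroot : ((conductor M : ℕ) : ℂ) ^ ((1 : ℂ) / 2) = N := by
    rw [hcond]
    have e1 : (((N ^ 2 : ℕ) : ℂ)) = (((N : ℝ) ^ 2 : ℝ) : ℂ) := by push_cast; rfl
    have e2 : ((1 : ℂ) / 2) = (((1 : ℝ) / 2 : ℝ) : ℂ) := by push_cast; rfl
    rw [e1, e2, ← Complex.ofReal_cpow (by positivity), ← Real.sqrt_eq_rpow, Real.sqrt_sq (by positivity)]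
    simp
  have hne : Linf M ι ((M.m : ℂ) + 1) * z' ι ≠ 0 :=
    mul_ne_zero (Linf_ne M ι (k := M.m + 1) (by push_cast; rfl) (by omega)) (hz0 ι)
  have hι : ι (algebraMap ℚ E e₀) = (e₀ : ℂ) := by simp
  rw [h1, hroot, mul_div_assoc, div_self hne, mul_one, hcC, hι, he]
  push_cast
  have hc0' : (c : ℂ) ≠ 0 := by exact_mod_cast hc0
  field_simp

end

end Pool.Agent.K9h86.CP
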